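import Pool.Agent.H72.UZ.TarZ

/-!
# Module QA of uz_modules: the new system: labels, order, meets
-/

set_option linter.unusedVariables false

open Ordinal Order Set
open scoped ZFSet

namespace SE.UZ

open SF

theorem pf_QA (h1 : T_Q1) (h0 : T_W0) (hw1 : T_W1) (hw2 : T_W2) : T_QA := by
  intro D κ b hA hb c hc
  obtain ⟨_, qOb, qu, qLe, _, _, _⟩ := h1 D κ b hA hb c hc
  obtain ⟨w1, w2, w3, w4, _⟩ := hw1 D κ b hA hb
  have hl : c.l = b.l + 2 := by rw [hc]; rfl
  have hS : ∀ k, c.S k ↔ b.S k ∨ k = b.l := by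
    intro k
    rw [hc]
    exact Iff.rfl
  refine ⟨?_, ?_, ?_, ?_, ?_, ?_, ?_, ?_, ?_⟩
  · rw [hl]
    have := hb.l3
    omega
  · intro k hk
    rw [hl]
    rcases (hS k).1 hk with h | h
    · have := hb.sl k h
      omega
    · have := hb.l3
      omega
  · intro B hB
    have hT := (qOb B).1 hB
    rw [qu B hT]
    exact (h0 D κ b hA hb B hT).2.1
  · intro B hB i hi e he hk
    have hT := (qOb B).1 hB
    rw [qu B hT] at hi ⊢
    obtain ⟨_, _, hm, hO, _⟩ := h0 D κ b hA hb B hT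
    obtain ⟨ξ, hξ, hiξ⟩ := (hm i).1 hi
    obtain ⟨ho, _, hsub⟩ := hO ξ hξ
    have key : vw i ⊆ b.u (tK B ξ) := by
      rcases (hS e).1 he with h | h
      · exact hb.rk _ ho.o i hiξ e h hk
      · have hco : b.Co i := by
          unfold BS.Co
          rw [← h]
          exact hk
        obtain ⟨_, ⟨A, hle, hu⟩, _⟩ := ho.v i hiξ hco
        rw [← hu]
        exact (hb.leO A _ hle).2.2
    exact fun x hx => hsub (key hx)
  · intro C B hCB
    have h := (qLe C B).1 hCB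
    refine ⟨(qOb C).2 h.t, (qOb B).2 h.t', ?_⟩
    rw [qu C h.t, qu B h.t']
    exact (w4 C B h).1
  · intro B hB
    exact (qLe B B).2 (w1 B ((qOb B).1 hB))
  · intro C B A hCB hBA
    exact (qLe C A).2 (w2 C B A ((qLe C B).1 hCB) ((qLe B A).1 hBA))
  · intro C C' B hCB hC'B hsub
    have a := (qLe C B).1 hCB
    have a' := (qLe C' B).1 hC'B
    rw [qu C a.t, qu C' a'.t] at hsub
    exact (qLe C C').2 (w3 C C' B a a' hsub)
  · intro C C' B hCB hC'B
    have a := (qLe C B).1 hCB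
    have a' := (qLe C' B).1 hC'B
    obtain ⟨E, hE, hu⟩ := hw2 D κ b hA hb C C' B a a'
    refine ⟨E, (qLe E B).2 hE, ?_⟩
    rw [qu E hE.t, qu C a.t, qu C' a'.t]
    exact hu

end SE.UZ
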