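import Pool.Agent.H38.UZ.TarZ

/-!
# Module ZK of uz_modules: transport of secured and killed facts
-/

set_option linter.unusedVariables false

open Ordinal Order Set
open scoped ZFSet

namespace SE.UZ

open SF

theorem pf_ZK (h1 : T_QI1) (h2 : T_QI2) (h3 : T_QI3) (h4 : T_QRN) (h5 : T_BK) : T_ZK := by
  intro D κ b hA hb B hB π ρ' hI G hG
  have hD := hA.ok
  have hS : Sl b.l b.S := fun e he => ⟨(hb.sl e he).1, by have := hb.sl e he; omega⟩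
  obtain ⟨⟨_, _, him, _, _, _, _⟩, _, _, _, _⟩ := h1 D hD b.l b.S π (b.u B) ρ' hS hI
  obtain ⟨_, _, _, _, _, hs⟩ := h3 D hD b.l b.S π (b.u B) ρ' hS hI G hG _ rfl
  have nB : D.N (b.u B) := hD.zfc.trans _ hD.hN _ (hb.cs B hB).h
  have tB : Tr (b.u B) := fun i hi => ((hb.cs B hB).c i hi).2
  obtain ⟨_, _, hRR, _, _⟩ := hs (b.u B) nB (fun _ h => h) tB
  rw [him] at hRR
  obtain ⟨_, hu, _, _⟩ := hb.tr B hB π ρ' hI
  have hSs : ∀ a x, b.Ss D B G a x ↔ b.Ss D (b.T π B) (gi D π ρ' G) a x := by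
    intro a x
    unfold BS.Ss
    rw [hu]
    constructor
    · rintro ⟨v, hv, hse⟩
      exact ⟨v, (hRR v).2 hv, (hb.trS B hB π ρ' hI G hG a (prl x v)).1 hse⟩
    · rintro ⟨v, hv, hse⟩
      exact ⟨v, (hRR v).1 hv, (hb.trS B hB π ρ' hI G hG a (prl x v)).2 hse⟩
  refine ⟨hSs, ?_, ?_⟩
  · intro X y
    unfold BS.Kil
    constructor
    · rintro ⟨a, x, ha, hx, e, h⟩
      exact ⟨a, x, ha, hx, e, (hSs a (prl x y)).1 h⟩
    · rintro ⟨a, x, ha, hx, e, h⟩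
      exact ⟨a, x, ha, hx, e, (hSs a (prl x y)).2 h⟩
  · intro j hj
    exact hI.k j hj b.l hb.l3 le_rfl

end SE.UZ
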